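import Pool.Agent.H53.HR.Targets

/-!
# Module GEO of MP_f2da09_co: many induced paths in a connected graph
-/

open Finset

namespace Pool.Agent.H94.HR

open Pool.Agent.H53.HR (Conn IP)

variable {V : Type}

/-- A graph distance on `Q`. -/
structure DD (G : SimpleGraph V) (Q : Finset V) (d : V → V → ℕ) : Prop where
  self : ∀ x ∈ Q, d x x = 0
  eq0 : ∀ x ∈ Q, ∀ y ∈ Q, d x y = 0 → x = y
  symm : ∀ x ∈ Q, ∀ y ∈ Q, d x y = d y x
  tri : ∀ x ∈ Q, ∀ y ∈ Q, ∀ z ∈ Q, d x z ≤ d x y + d y z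
  adj : ∀ x ∈ Q, ∀ y ∈ Q, G.Adj x y → d x y ≤ 1
  step : ∀ a ∈ Q, ∀ b ∈ Q, a ≠ b → ∃ c ∈ Q, G.Adj a c ∧ d c b + 1 = d a b

theorem conn_reach (G : SimpleGraph V) (Q : Finset V) (h : Conn G Q) :
    (G.induce (Q : Set V)).Connected := by
  classical
  obtain ⟨⟨x0, hx0⟩, hc⟩ := h
  have key : ∀ x : (Q : Set V), (G.induce (Q : Set V)).Reachable ⟨x0, hx0⟩ x := by
    let S : Finset V := Q.filter (fun x => ∃ h : x ∈ (Q : Set V),
      (G.induce (Q : Set V)).Reachable ⟨x0, hx0⟩ ⟨x, h⟩)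
    have hSQ : S ⊆ Q := filter_subset _ _
    have hx0S : x0 ∈ S := mem_filter.2 ⟨hx0, hx0, SimpleGraph.Reachable.refl _⟩
    have hS : S = Q := by
      by_contra hne
      obtain ⟨x, hx, y, hy, hyS, hxy⟩ := hc S hSQ ⟨x0, hx0S⟩ hne
      obtain ⟨_, hxQ, hxr⟩ := mem_filter.1 hx
      apply hyS
      refine mem_filter.2 ⟨hy, hy, hxr.trans ?_⟩
      exact SimpleGraph.Adj.reachable (by simpa using hxy)
    intro x
    have hx : x.1 ∈ S := by rw [hS]; exact x.2
    obtain ⟨_, _, hr⟩ := mem_filter.1 hx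
    exact hr
  have : Nonempty (Q : Set V) := ⟨⟨x0, hx0⟩⟩
  exact ⟨fun x y => (key x).symm.trans (key y)⟩

theorem exists_dd (G : SimpleGraph V) (Q : Finset V) (h : Conn G Q) :
    ∃ d : V → V → ℕ, DD G Q d := by
  classical
  have hcon := conn_reach G Q h
  let d : V → V → ℕ := fun x y => if h : x ∈ (Q : Set V) ∧ y ∈ (Q : Set V) then
    (G.induce (Q : Set V)).dist ⟨x, h.1⟩ ⟨y, h.2⟩ else 0
  have hd : ∀ x y (hx : x ∈ (Q : Set V)) (hy : y ∈ (Q : Set V)),
      d x y = (G.induce (Q : Set V)).dist ⟨x, hx⟩ ⟨y, hy⟩ := fun x y hx hy => by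
    simp only [d]
    rw [dif_pos ⟨hx, hy⟩]
  refine ⟨d, ?_, ?_, ?_, ?_, ?_, ?_⟩
  · intro x hx
    rw [hd x x hx hx, SimpleGraph.dist_self]
  · intro x hx y hy h0
    rw [hd x y hx hy] at h0
    have := (SimpleGraph.Reachable.dist_eq_zero_iff (hcon.preconnected _ _)).1 h0
    simpa using this
  · intro x hx y hy
    rw [hd x y hx hy, hd y x hy hx, SimpleGraph.dist_comm]
  · intro x hx y hy z hz
    rw [hd x z hx hz, hd x y hx hy, hd y z hy hz]
    exact hcon.dist_triangle
  · intro x hx y hy hxy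
    rw [hd x y hx hy]
    have : (G.induce (Q : Set V)).Adj ⟨x, hx⟩ ⟨y, hy⟩ := by simpa using hxy
    rw [SimpleGraph.dist_eq_one_iff_adj.2 this]
  · intro a ha b hb hab
    obtain ⟨p, hp⟩ := (hcon.preconnected ⟨a, ha⟩ ⟨b, hb⟩).exists_walk_length_eq_dist
    cases p with
    | nil => exact absurd rfl hab
    | @cons _ c _ hadj q =>
      refine ⟨c.1, c.2, by simpa using hadj, ?_⟩
      rw [hd c.1 b c.2 hb, hd a b ha hb]
      rw [SimpleGraph.Walk.length_cons] at hp
      have h1 : (G.induce (Q : Set V)).dist c ⟨b, hb⟩ ≤ q.length := SimpleGraph.dist_le q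
      have h2 := hcon.dist_triangle (u := ⟨a, ha⟩) (v := c) (w := ⟨b, hb⟩)
      have h3 : (G.induce (Q : Set V)).dist ⟨a, ha⟩ c = 1 := SimpleGraph.dist_eq_one_iff_adj.2 hadj
      have h4 : (⟨c.1, c.2⟩ : (Q : Set V)) = c := rfl
      rw [h4]
      omega

theorem path_of [DecidableEq V] {G : SimpleGraph V} {Q : Finset V} {d : V → V → ℕ}
    (D : DD G Q d) (b : V) (hb : b ∈ Q) : ∀ (n : ℕ) (a : V), a ∈ Q → d a b = n →
    ∃ U ⊆ Q, IP G a U ∧ a ∈ U ∧ b ∈ U ∧ #U = n + 1 ∧ (∀ u ∈ U, d u b ≤ n) ∧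
      (∀ u ∈ U, d u b = n → u = a) ∧
      (∀ u ∈ U, ∀ u' ∈ U, d u' b ≤ d u b → d u u' + d u' b = d u b) := by
  intro n
  induction n with
  | zero =>
    intro a ha h0
    have hab := D.eq0 a ha b hb h0
    subst hab
    refine ⟨{a}, singleton_subset_iff.2 ha, IP.single a, mem_singleton_self a,
      mem_singleton_self a, card_singleton a, ?_, ?_, ?_⟩
    · intro u hu
      rw [mem_singleton.1 hu, h0]
    · intro u hu _
      exact mem_singleton.1 hu
    · intro u hu u' hu' _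
      rw [mem_singleton.1 hu, mem_singleton.1 hu', h0]
  | succ n ih =>
    intro a ha hn
    have hab : a ≠ b := by
      rintro rfl
      rw [D.self a ha] at hn
      omega
    obtain ⟨c, hc, hac, hcb⟩ := D.step a ha b hb hab
    obtain ⟨U, hUQ, hIP, hcU, hbU, hcard, hle, huniq, hmet⟩ := ih c hc (by omega)
    have haU : a ∉ U := by
      intro h
      have := hle a h
      omega
    have h1 : d a c ≤ 1 := D.adj a ha c hc hac
    refine ⟨insert a U, insert_subset ha hUQ, ?_, mem_insert_self _ _,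
      mem_insert_of_mem hbU, ?_, ?_, ?_, ?_⟩
    · refine IP.cons a c U hIP haU hac ?_
      intro u hu huc hadj
      have h2 := D.adj a ha u (hUQ hu) hadj
      have h3 := D.tri a ha u (hUQ hu) b hb
      have h4 := hle u hu
      exact huc (huniq u hu (by omega))
    · rw [card_insert_of_notMem haU, hcard]
    · intro u hu
      rcases mem_insert.1 hu with rfl | hu
      · omega
      · have := hle u hu
        omega
    · intro u hu hun
      rcases mem_insert.1 hu with rfl | hu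
      · rfl
      · have := hle u hu
        omega
    · intro u hu0 u' hu' hd
      rcases mem_insert.1 hu0 with rfl | hu
      · rcases mem_insert.1 hu' with rfl | hu'
        · rw [D.self _ ha]; omega
        · have h2 := D.tri u ha u' (hUQ hu') b hb
          have h3 := D.tri u ha c hc u' (hUQ hu')
          have h4 := hmet c hcU u' hu' (by have := hle u' hu'; omega)
          omega
      · rcases mem_insert.1 hu' with h5 | hu'
        · rw [h5] at hd
          have := hle u hu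
          omega
        · exact hmet u hu u' hu' hd

theorem geo : Pool.Agent.H53.HR.GEO := by
  intro V _ G Q hQ
  obtain ⟨d, D⟩ := exists_dd G Q hQ
  have hex : ∀ z : Sym2 V, ∃ U : Finset V, z ∈ Q.sym2 → (U ⊆ Q ∧ (∃ a ∈ U, IP G a U) ∧
      ∃ a b, a ∈ Q ∧ b ∈ Q ∧ z = s(a, b) ∧ a ∈ U ∧ b ∈ U ∧ #U = d a b + 1 ∧
        ∀ u ∈ U, ∀ u' ∈ U, d u u' = d a b → s(u, u') = z) := by
    intro z
    by_cases hz : z ∈ Q.sym2
    · induction z using Sym2.ind with
      | _ a b =>
        rw [mk_mem_sym2_iff] at hz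
        obtain ⟨ha, hb⟩ := hz
        obtain ⟨U, hUQ, hIP, haU, hbU, hcard, hle, huniq, hmet⟩ := path_of D b hb (d a b) a ha rfl
        refine ⟨U, fun _ => ⟨hUQ, ⟨a, haU, hIP⟩, a, b, ha, hb, rfl, haU, hbU, hcard, ?_⟩⟩
        intro u hu u' hu' huu
        rcases le_total (d u' b) (d u b) with h1 | h1
        · have h2 := hmet u hu u' hu' h1
          have h3 := hle u hu
          have h4 : u' = b := D.eq0 u' (hUQ hu') b hb (by omega)
          have h5 : u = a := huniq u hu (by omega)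
          rw [h4, h5]
        · have h2 := hmet u' hu' u hu h1
          have h3 := hle u' hu'
          rw [D.symm u (hUQ hu) u' (hUQ hu')] at huu
          have h4 : u = b := D.eq0 u (hUQ hu) b hb (by omega)
          have h5 : u' = a := huniq u' hu' (by omega)
          rw [h4, h5, Sym2.eq_swap]
    · exact ⟨∅, fun h => absurd h hz⟩
  choose F hF using hex
  refine ⟨Q.sym2.image F, ?_, ?_⟩
  · have hinj : Set.InjOn F (Q.sym2 : Set (Sym2 V)) := by
      intro z hz z' hz' hzz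
      obtain ⟨-, -, a, b, -, -, -, -, -, hc, h1⟩ := hF z hz
      obtain ⟨-, -, a', b', -, -, h2, ha', hb', hc', -⟩ := hF z' hz'
      rw [← hzz] at ha' hb' hc'
      rw [h2]
      exact (h1 a' ha' b' hb' (by omega)).symm
    rw [card_image_of_injOn hinj, card_sym2, Nat.choose_two_right]
    have h2 : 2 ∣ (#Q + 1) * (#Q + 1 - 1) := by
      rw [Nat.add_sub_cancel, mul_comm]
      exact (Nat.even_mul_succ_self #Q).two_dvd
    rw [Nat.mul_div_cancel' h2, Nat.add_sub_cancel, mul_comm]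
  · intro U hU
    obtain ⟨z, hz, rfl⟩ := mem_image.1 hU
    exact ⟨(hF z hz).1, (hF z hz).2.1⟩

end Pool.Agent.H94.HR
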